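import Pool.Agent.R649.BT.Node

set_option autoImplicit false

/-!
# Toroidal manifolds built from three kinds of pieces

## The pieces

A piece is a compact 3-manifold whose boundary consists of tori `0, ..., m`, given by a presentation
of its fundamental group, together with words `x i`, `e i` that form a basis of the fundamental group
of the torus `i` (`Pool.Agent.R649.BT.Block`):

* `Block.bor`: the exterior of the Borromean rings (three cusps, hyperbolic); `x` is the inverse of
  the meridian and `e` its product with the longitude;
* `Block.alt D`: the double cover of the exterior of a circle `A` that encircles three strands of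
  an alternating link `L`, branched along `L`; crossings of `L` may be replaced by positive rational
  tangles (one cusp). The basis `x, e` consists of the lifts `t, t₁` of `meridian * μ⁻¹`,
  `meridian * μ` where `μ` is the longitude of `A`. All hyperbolic once-punctured torus bundles of
  negative trace are of this kind. See `Pool.Agent.R649.BT.Alt`;
* `Block.seif k`: the product of the circle with a sphere with `k + 3` holes; `x` is the fibre and
  `e` the inverse of the boundary curve.

For each torus the slopes `x ^ i * e ^ j` with `i, j ≥ 0` are called positive.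

## The manifolds

A closed manifold is built from a piece by gluing to each boundary torus either a solid torus
(`Filling.solid i j`: the slope `x ^ i * e ^ j` bounds a meridian disk) or the torus `0` of another
piece, the other tori of which are filled in the same way. In the second case
(`Filling.piece A B C D K att`) the gluing is given by `x = x' ^ A * e' ^ B` and
`e = (x' ^ C * e' ^ D)⁻¹` with positive integers `A, B, C, D`, where `x', e'` is the basis for the
torus `0` of the other piece: this means that each slope is in the interior of the set of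
positive slopes on one of the two sides (at least).

## The proof

Let the group act on a complete linear order by order automorphisms. The main points are: for
each of the pieces, with all tori but torus `0` filled, a common fixed point of `x 0`, `e 0` is a
global fixed point (`ofix`, `ESys.fixT`, `SeifOK.ok`), and the action is trivial if `x 0` and `e 0`
never move a point in the same direction. Between two global fixed points the torus `0` acts without
common fixed points, so that there is a well defined slope, and this slope is not in the interior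
of the set of positive slopes (`wedge`, `Piece.key`). So on the other side of the torus the
corresponding `x` and `e` never move a point in the same direction.
-/

universe u

namespace Pool.Agent.Results.MP_3d425c_gt.TreesOfPieces

open Pool.Agent.R649.BT

/-- A nontrivial group is left-orderable if it carries a strict total order that is invariant
under left multiplication. -/
def LeftOrderable (G : Type*) [Group G] : Prop :=
  Nontrivial G ∧ ∃ lt : G → G → Prop, IsStrictTotalOrder G lt ∧
    ∀ a b c : G, lt a b ↔ lt (c * a) (c * b)

/-- What is glued to a boundary torus. The value `att 0` is not used. -/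
inductive Filling : Type 1
  | solid (i j : ℕ) : Filling
  | piece (A B C D : ℕ) (K : Block) (att : K.Tori → Filling) : Filling

/-- A group presentation with two marked words. -/
structure Pres : Type 1 where
  gen : Type
  rel : Set (FreeGroup gen)
  x : FreeGroup gen
  e : FreeGroup gen

section words
variable {K : Block} {S : Set (K.Tori)} {P : K.Tori → Pres}

/-- The generators: those of the piece `K` and those of `P i` for `i ∈ S`. -/
abbrev Gen (K : Block) (S : Set (K.Tori)) (P : K.Tori → Pres) : Type :=
  K.gen ⊕ (Σ i : S, (P i).gen)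

/-- The words in the generators of the piece `K`. -/
def base : FreeGroup K.gen →* FreeGroup (Gen K S P) := FreeGroup.map Sum.inl

/-- The words in the generators of `P i`. -/
def incl (i : S) : FreeGroup (P i).gen →* FreeGroup (Gen K S P) :=
  FreeGroup.map fun g => Sum.inr ⟨i, g⟩

end words

/-- The relators of the gluing along a torus with basis `x, e`; `x', e'` is the basis on the other
side. -/
def glue {F : Type} [Group F] (x e x' e' : F) : Filling → Set F
  | .solid i j => {x ^ i * e ^ j}
  | .piece A B C D _ _ => {x * (x' ^ A * e' ^ B)⁻¹, e * (x' ^ C * e' ^ D)}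

/-- The relators of the gluing along the torus `i`. -/
def gluing (K : Block) (S : Set K.Tori) (P : K.Tori → Pres) (att : K.Tori → Filling) (i : S) :
    Set (FreeGroup (Gen K S P)) :=
  glue (base (K.x i)) (base (K.e i)) (incl i (P i).x) (incl i (P i).e) (att i)

/-- The relators for the torus `i`: those of the gluing and those of `P i`. -/
def torusRel (K : Block) (S : Set K.Tori) (P : K.Tori → Pres) (att : K.Tori → Filling) (i : S) :
    Set (FreeGroup (Gen K S P)) :=
  gluing K S P att i ∪ incl i '' (P i).rel

/-- The relators of the piece `K` with manifolds with presentations `P i` glued to the tori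
`i ∈ S` as described by `att i`. -/
def rels (K : Block) (S : Set K.Tori) (P : K.Tori → Pres) (att : K.Tori → Filling) :
    Set (FreeGroup (Gen K S P)) :=
  base '' K.rel ∪ ⋃ i : S, torusRel K S P att i

/-- The presentation of the fundamental group of the piece `K` with manifolds with presentations
`P i` glued to the tori `i ∈ S` as described by `att i`. -/
def build (K : Block) (S : Set K.Tori) (P : K.Tori → Pres) (att : K.Tori → Filling) : Pres :=
  ⟨Gen K S P, rels K S P att, base (K.x 0), base (K.e 0)⟩

/-- The presentation for a filling: nothing for a solid torus; otherwise the piece with its tori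
`i ≠ 0` filled by `att i`. -/
def Filling.pres : Filling → Pres
  | .solid _ _ => ⟨Empty, ∅, 1, 1⟩
  | .piece _ _ _ _ K att => build K {i | i ≠ 0} (fun i => (att i).pres) att

/-- The fundamental group of the closed manifold obtained from the piece `K` with the fillings
`att i` of all boundary tori. -/
abbrev ClosedGroup (K : Block) (att : K.Tori → Filling) : Type :=
  PresentedGroup (build K Set.univ (fun i => (att i).pres) att).rel

/-- The three kinds of pieces. -/
inductive IsPiece : Block → Prop
  | bor : IsPiece Block.bor
  | seif (k : ℕ) : IsPiece (Block.seif k)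
  | alt (D : Alt.Diagram) : IsPiece (Block.alt D)

/-- The slope of a solid torus is in the interior of the set of positive slopes, or the filling is
a piece. -/
def Filling.Strict : Filling → Prop
  | .solid i _ => 1 ≤ i
  | .piece _ _ _ _ _ _ => True

/-- The condition on the fillings of a piece: in the case of a Seifert piece, the fillings of the
tori `i ≠ 0` are strict. -/
def Attach (K : Block) (att : K.Tori → Filling) : Prop :=
  (∃ k, K = Block.seif k) → ∀ i, i ≠ 0 → (att i).Strict

/-- The conditions on a filling. -/
def Filling.Good : Filling → Prop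
  | .solid _ j => 1 ≤ j
  | .piece A B C D K att => (1 ≤ A ∧ 1 ≤ B ∧ 1 ≤ C ∧ 1 ≤ D ∧ |(A : ℤ) * D - B * C| = 1) ∧
      IsPiece K ∧ Attach K att ∧ ∀ i, i ≠ 0 → (att i).Good

section proof

/-- The properties of the pieces. -/
theorem IsPiece.ok {K : Block} (h : IsPiece K) :
    BlockOK.{u} K.rel K.x K.e (∃ k, K = Block.seif k) := by
  cases h with
  | bor =>
    have h := BorOK.ok.{u}
    exact ⟨h.comm, h.opn, fun X _ ρ h0 hc _ => h.closed X ρ h0 hc (fun hf => hf.elim)⟩
  | seif k =>
    have h := SeifOK.ok.{u} k
    exact ⟨h.comm, h.opn, fun X _ ρ h0 hc hs => h.closed X ρ h0 hc (fun _ => hs ⟨k, rfl⟩)⟩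
  | alt D =>
    have h := AltOK.ok.{u} D
    exact ⟨h.comm, h.opn, fun X _ ρ h0 hc _ => h.closed X ρ h0 hc (fun hf => hf.elim)⟩

/-- What is known about a filling. -/
def Known (F : Filling) (P : Pres) : Prop :=
  match F with
  | .solid _ j => 1 ≤ j ∧ IsEmpty P.gen
  | .piece A B C D _ _ => (1 ≤ A ∧ 1 ≤ B ∧ 1 ≤ C ∧ 1 ≤ D) ∧
      TameE.{u} (PresentedGroup P.rel) (PresentedGroup.mk P.rel P.x)
        (PresentedGroup.mk P.rel P.e)

variable {K : Block} {S : Set (K.Tori)} {P : K.Tori → Pres}
  {att : K.Tori → Filling}

/-- The class of a word. -/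
abbrev cl (K : Block) (S : Set (K.Tori)) (P : K.Tori → Pres)
    (att : K.Tori → Filling) :
    FreeGroup (Gen K S P) →* PresentedGroup (build K S P att).rel :=
  PresentedGroup.mk (build K S P att).rel

theorem cl_one {w : FreeGroup (Gen K S P)} (hw : w ∈ (build K S P att).rel) :
    cl K S P att w = 1 := PresentedGroup.one_of_mem hw

theorem cl_base {w : FreeGroup K.gen} (hw : w ∈ K.rel) : cl K S P att (base w) = 1 :=
  cl_one (Or.inl ⟨w, hw, rfl⟩)

theorem cl_glue (i : S) {w : FreeGroup (Gen K S P)}
    (hw : w ∈ glue (base (K.x i)) (base (K.e i)) (incl i (P i).x) (incl i (P i).e) (att i)) :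
    cl K S P att w = 1 :=
  cl_one (Or.inr (Set.mem_iUnion.mpr ⟨i, Or.inl hw⟩))

theorem cl_rel (i : S) {w : FreeGroup (P i).gen} (hw : w ∈ (P i).rel) :
    cl K S P att (incl i w) = 1 :=
  cl_one (Or.inr (Set.mem_iUnion.mpr ⟨i, Or.inr ⟨w, hw, rfl⟩⟩))

/-- The homomorphism from the group of the piece. -/
def jj (K : Block) (S : Set (K.Tori)) (P : K.Tori → Pres)
    (att : K.Tori → Filling) :
    PresentedGroup K.rel →* PresentedGroup (build K S P att).rel :=
  PresentedGroup.toGroup (f := fun g => cl K S P att (FreeGroup.of (Sum.inl g))) (by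
    intro r hr
    have h1 : FreeGroup.lift (fun g => cl K S P att (FreeGroup.of (Sum.inl g))) =
        (cl K S P att).comp base := by
      apply FreeGroup.ext_hom
      intro g
      rw [FreeGroup.lift_apply_of]
      rfl
    rw [h1]
    exact cl_base hr)

theorem jj_mk (w : FreeGroup K.gen) :
    jj K S P att (PresentedGroup.mk K.rel w) = cl K S P att (base w) := by
  have h1 : (jj K S P att).comp (PresentedGroup.mk K.rel) = (cl K S P att).comp base := by
    apply FreeGroup.ext_hom
    intro g
    show jj K S P att (PresentedGroup.of g) = _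
    rw [jj, PresentedGroup.toGroup.of]
    rfl
  exact DFunLike.congr_fun h1 w

/-- The homomorphism from the group of a filling. -/
def iota (att : K.Tori → Filling) (i : S) :
    PresentedGroup (P i).rel →* PresentedGroup (build K S P att).rel :=
  PresentedGroup.toGroup (f := fun g => cl K S P att (FreeGroup.of (Sum.inr ⟨i, g⟩))) (by
    intro r hr
    have h1 : FreeGroup.lift (fun g => cl K S P att (FreeGroup.of (Sum.inr ⟨i, g⟩))) =
        (cl K S P att).comp (incl i) := by
      apply FreeGroup.ext_hom
      intro g
      rw [FreeGroup.lift_apply_of]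
      rfl
    rw [h1]
    exact cl_rel i hr)

theorem iota_mk (i : S) (w : FreeGroup (P i).gen) :
    iota att i (PresentedGroup.mk (P i).rel w) = cl K S P att (incl i w) := by
  have h1 : (iota att i).comp (PresentedGroup.mk (P i).rel) =
      (cl K S P att).comp (incl i) := by
    apply FreeGroup.ext_hom
    intro g
    show iota att i (PresentedGroup.of g) = _
    rw [iota, PresentedGroup.toGroup.of]
    rfl
  exact DFunLike.congr_fun h1 w

variable {X : Type u} [CompleteLinearOrder X]

/-- A filling caps a torus. -/
theorem cap (hK : IsPiece K) (ρ : PresentedGroup (build K S P att).rel →* (X ≃o X))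
    {i : K.Tori} (hi : i ∈ S) (hk : Known.{u} (att i) (P i)) :
    Cap (ρ (cl K S P att (base (K.x i)))) (ρ (cl K S P att (base (K.e i)))) ∧
    ((att i).Strict →
      SCap (ρ (cl K S P att (base (K.x i)))) (ρ (cl K S P att (base (K.e i))))) ∧
    ∀ p, ρ (cl K S P att (base (K.x i))) p = p → ∀ g : PresentedGroup (P i).rel,
      ρ (iota att ⟨i, hi⟩ g) p = p := by
  have hg := fun w => cl_glue (att := att) (P := P) (⟨i, hi⟩ : S) (w := w)
  have hcm : Commute (cl K S P att (base (K.x i))) (cl K S P att (base (K.e i))) := by
    have h := (hK.ok.{u}).comm i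
    have h1 := h.map (jj K S P att)
    rwa [jj_mk, jj_mk] at h1
  have hc : Commute (ρ (cl K S P att (base (K.x i)))) (ρ (cl K S P att (base (K.e i)))) :=
    hcm.map ρ
  change ∀ w, w ∈ glue (base (K.x i)) (base (K.e i)) (incl (⟨i, hi⟩ : S) (P i).x)
    (incl (⟨i, hi⟩ : S) (P i).e) (att i) → _ at hg
  rcases ha : att i with ⟨a, b⟩ | ⟨A, B, C, D, K', att'⟩
  · rw [ha] at hk hg
    have h1 := congrArg ρ (hg _ rfl)
    rw [map_mul, map_pow, map_pow, map_mul, map_pow, map_pow, map_one] at h1
    obtain ⟨c1, c2⟩ := cap_solid hc hk.1 h1
    refine ⟨c1, c2, fun p _ g => ?_⟩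
    have he : IsEmpty (P i).gen := hk.2
    have h2 : g = 1 := by
      obtain ⟨w, rfl⟩ := PresentedGroup.mk_surjective (rels := (P i).rel) g
      have h3 : w = 1 := Subsingleton.elim _ _
      rw [h3, map_one]
    rw [h2, map_one, map_one]; rfl
  · rw [ha] at hk hg
    obtain ⟨⟨hA, hB, hC, hD⟩, hT⟩ := hk
    have h1 : cl K S P att (base (K.x i)) = iota att ⟨i, hi⟩
        (PresentedGroup.mk (P i).rel (P i).x ^ A * PresentedGroup.mk (P i).rel (P i).e ^ B) := by
      have h := hg _ (Or.inl rfl)
      rw [map_mul, map_inv, mul_inv_eq_one, map_mul, map_pow, map_pow] at h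
      rw [map_mul, map_pow, map_pow, iota_mk, iota_mk]
      exact h
    have h2 : cl K S P att (base (K.e i)) = iota att ⟨i, hi⟩
        (PresentedGroup.mk (P i).rel (P i).x ^ C *
          PresentedGroup.mk (P i).rel (P i).e ^ D)⁻¹ := by
      have h := hg _ (Or.inr rfl)
      rw [map_mul, map_mul, map_pow, map_pow, mul_eq_one_iff_eq_inv] at h
      rw [map_inv, map_mul, map_pow, map_pow, iota_mk, iota_mk]
      exact h
    have h3 := hT.scap X (ρ.comp (iota att ⟨i, hi⟩)) A B C D hA hB hC hD
    rw [h1, h2]
    exact ⟨h3.cap, fun _ => h3, fun p hp g =>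
      hT.fix X (ρ.comp (iota att ⟨i, hi⟩)) A B hA hB p hp g⟩

/-- A point fixed by the piece is fixed by the group. -/
theorem gen (hK : IsPiece K) (hk : ∀ i ∈ S, Known.{u} (att i) (P i))
    (ρ : PresentedGroup (build K S P att).rel →* (X ≃o X)) {p : X}
    (ho : ∀ g, ρ (jj K S P att g) p = p) (g) : ρ g p = p := by
  refine fix_gens ρ ?_ g
  rintro (g | ⟨⟨i, hi⟩, g⟩)
  · have h1 := ho (PresentedGroup.of g)
    have h5 : jj K S P att (PresentedGroup.of g) =
        PresentedGroup.mk _ (FreeGroup.of (Sum.inl g : Gen K S P)) := by
      rw [jj, PresentedGroup.toGroup.of]; rfl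
    rw [h5] at h1
    exact h1
  · have h3 := ho (PresentedGroup.mk K.rel (K.x i))
    rw [jj_mk] at h3
    have h4 := (cap hK ρ hi (hk i hi)).2.2 p h3 (PresentedGroup.of g)
    have h5 : iota att (⟨i, hi⟩ : S) (PresentedGroup.of g) =
        PresentedGroup.mk _ (FreeGroup.of (Sum.inr ⟨⟨i, hi⟩, g⟩ : Gen K S P)) := by
      rw [iota, PresentedGroup.toGroup.of]; rfl
    rw [h5] at h4
    exact h4

/-- The caps, in terms of the group of the piece. -/
theorem caps (hK : IsPiece K) (hS : ∀ i, i ≠ 0 → i ∈ S)
    (hk : ∀ i ∈ S, Known.{u} (att i) (P i))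
    (ρ : PresentedGroup (build K S P att).rel →* (X ≃o X)) (i : K.Tori) (hi : i ≠ 0) :
    Cap ((ρ.comp (jj K S P att)) (PresentedGroup.mk K.rel (K.x i)))
      ((ρ.comp (jj K S P att)) (PresentedGroup.mk K.rel (K.e i))) ∧
    ((att i).Strict → SCap ((ρ.comp (jj K S P att)) (PresentedGroup.mk K.rel (K.x i)))
      ((ρ.comp (jj K S P att)) (PresentedGroup.mk K.rel (K.e i)))) := by
  have h := cap hK ρ (hS i hi) (hk i (hS i hi))
  rw [MonoidHom.comp_apply, MonoidHom.comp_apply, jj_mk, jj_mk]
  exact ⟨h.1, h.2.1⟩

/-- A piece whose tori `i ≠ 0` are filled. -/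
theorem node (hK : IsPiece K) (hS : ∀ i, i ≠ 0 → i ∈ S)
    (hk : ∀ i ∈ S, Known.{u} (att i) (P i)) (hA : Attach K att) :
    Piece.{u} (PresentedGroup (build K S P att).rel) (cl K S P att (base (K.x 0)))
      ((cl K S P att (base (K.x 0)))⁻¹ * cl K S P att (base (K.e 0))) := by
  have hcm : Commute (cl K S P att (base (K.x 0))) (cl K S P att (base (K.e 0))) := by
    have h := (hK.ok.{u}).comm 0
    have h1 := h.map (jj K S P att)
    rwa [jj_mk, jj_mk] at h1
  refine ⟨(Commute.refl _).inv_right.mul_right hcm, fun X _ ρ p hx ha g => ?_,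
    fun X _ ρ hd g p => ?_⟩
  · refine gen hK hk ρ ?_ g
    refine (hK.ok.{u}).opn X (ρ.comp (jj K S P att))
      (fun i hi => (caps hK hS hk ρ i hi).1) p ?_ ?_
    · rw [MonoidHom.comp_apply, jj_mk]; exact hx
    · rw [MonoidHom.comp_apply, jj_mk]
      rw [map_mul, map_inv] at ha
      have h1 : (ρ (cl K S P att (base (K.x 0))))⁻¹
          (ρ (cl K S P att (base (K.e 0))) p) = p := ha
      have h2 := congrArg (ρ (cl K S P att (base (K.x 0)))) h1
      have h3 : ∀ v, ρ (cl K S P att (base (K.x 0)))
          ((ρ (cl K S P att (base (K.x 0))))⁻¹ v) = v :=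
        fun v => (ρ (cl K S P att (base (K.x 0)))).apply_symm_apply v
      rw [h3, hx] at h2
      exact h2
  · refine gen hK hk ρ (fun g => ?_) g
    have h0 := Cap.of_dom hd
    rw [← map_mul, mul_inv_cancel_left] at h0
    refine (hK.ok.{u}).closed X (ρ.comp (jj K S P att)) ?_
      (fun i hi => (caps hK hS hk ρ i hi).1)
      (fun h i hi => (caps hK hS hk ρ i hi).2 (hA h i hi)) g p
    rw [MonoidHom.comp_apply, MonoidHom.comp_apply, jj_mk, jj_mk]
    exact h0

/-- The group of a good filling is tame. -/
theorem known (F : Filling) : F.Good → Known.{u} F F.pres := by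
  induction F with
  | solid i j => exact fun h => ⟨h, inferInstanceAs (IsEmpty Empty)⟩
  | piece A B C D K att ih =>
    rintro ⟨⟨hA, hB, hC, hD, _⟩, hK, hAt, hi⟩
    have hk : ∀ i ∈ {i : K.Tori | i ≠ 0}, Known.{u} (att i) (att i).pres :=
      fun i hi' => ih i (hi i hi')
    refine ⟨⟨hA, hB, hC, hD⟩, ?_⟩
    have hp := node hK (S := {i | i ≠ 0}) (fun i hi => hi) hk hAt
    refine hp.tameE ?_
    have h := (hK.ok.{u}).comm 0
    have h1 := h.map (jj K {i | i ≠ 0} (fun i => (att i).pres) att)
    rwa [jj_mk, jj_mk] at h1

/-- Every action of the group of a closed manifold on a complete linear order is trivial. -/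
theorem act_trivial (hK : IsPiece K) (hA : Attach K att) (hg : ∀ i, (att i).Good)
    (ρ : ClosedGroup K att →* (X ≃o X)) (g : ClosedGroup K att) (p : X) : ρ g p = p := by
  have hk : ∀ i ∈ (Set.univ : Set (K.Tori)), Known.{u} (att i) (att i).pres :=
    fun i _ => known (att i) (hg i)
  have hp := node hK (S := Set.univ) (fun i _ => Set.mem_univ i) hk hA
  refine hp.closed X ρ ?_ g p
  have h := (cap hK ρ (i := 0) (Set.mem_univ _) (hk 0 (Set.mem_univ _))).1.dom
  rw [map_mul, map_inv]
  exact h

open Pool.Agent.W705.Borr in
theorem hom_trivial (hK : IsPiece K) (hA : Attach K att) (hg : ∀ i, (att i).Good) (H : Type u)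
    [Group H] (hH : LeftOrderable H) (f : ClosedGroup K att →* H) (g : ClosedGroup K att) :
    f g = 1 := by
  classical
  obtain ⟨_, lt, hlt, hinv⟩ := hH
  let _ : LinearOrder H := linearOrderOfSTO lt
  have hinv' : ∀ a b c : H, a ≤ b ↔ c * a ≤ c * b := by
    intro a b c
    show (a = b ∨ lt a b) ↔ (c * a = c * b ∨ lt (c * a) (c * b))
    rw [mul_right_inj, ← hinv]
  let α : H →* (LowerSet H ≃o LowerSet H) :=
    { toFun := fun g => act hinv' g
      map_one' := OrderIso.ext (funext fun v => act_one hinv' v)
      map_mul' := fun g h => OrderIso.ext (funext fun v => act_mul hinv' g h v) }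
  exact eq_one_of_act hinv' _ fun v => act_trivial hK hA hg (α.comp f) g v

theorem not_lo {G : Type} [Group G]
    (h : ∀ (H : Type) [Group H], LeftOrderable H → ∀ f : G →* H, ∀ g, f g = 1) :
    ¬ LeftOrderable G := by
  intro hG
  obtain ⟨a, b, hab⟩ := hG.1
  have key := h G hG (MonoidHom.id _)
  have h1 := key a
  have h2 := key b
  simp only [MonoidHom.id_apply] at h1 h2
  exact hab (by rw [h1, h2])

end proof

/-- The fundamental group of a closed manifold built from the pieces as described is not
left-orderable, and every homomorphism from it to a left-orderable group is trivial. -/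
theorem result (K : Block) (hK : IsPiece K) (att : K.Tori → Filling)
    (hA : Attach K att) (hg : ∀ i, (att i).Good) :
    ¬ LeftOrderable (ClosedGroup K att) ∧
    ∀ (H : Type u) [Group H], LeftOrderable H → ∀ f : ClosedGroup K att →* H, ∀ g, f g = 1 :=
  ⟨not_lo fun H _ hH f g => hom_trivial hK hA hg H hH f g,
    fun H _ hH f g => hom_trivial hK hA hg H hH f g⟩

end Pool.Agent.Results.MP_3d425c_gt.TreesOfPieces
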